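import Pool.Agent.Q41.GT.Stm5

/-!
# Normal form of a map with a marked periodic point (R6)
-/

set_option autoImplicit false

namespace Pool.Agent.Q174.GT

open Finset Polynomial
open Pool.Agent.W277.UH (ratP1)
open Pool.Agent.Q41.GT

section mob

variable {K : Type} [Field K]

/-- a Moebius map -/
noncomputable abbrev mob (a b c e : K) (y : Option K) : Option K :=
  ratP1 (C a * X + C b) (C c * X + C e) 1 y

lemma pt_zero {u w : K} (h : w = 0) : pt ![u, w] = none := by
  unfold pt
  exact if_pos h

lemma pt_ne {u w : K} (h : w ≠ 0) : pt ![u, w] = some (u / w) := by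
  unfold pt
  exact if_neg h

lemma pt_smul (r : K) (hr : r ≠ 0) (u w : K) : pt ![r * u, r * w] = pt ![u, w] := by
  by_cases h : w = 0
  · rw [pt_zero h, pt_zero (by rw [h, mul_zero])]
  · rw [pt_ne h, pt_ne (mul_ne_zero hr h), mul_div_mul_left _ _ hr]

lemma eval_lin (a b t : K) : (C a * X + C b).eval t = a * t + b := by
  rw [eval_add, eval_mul, eval_C, eval_X, eval_C]

lemma coeff_lin (a b : K) : (C a * X + C b).coeff 1 = a := by
  rw [coeff_add, coeff_C_mul, coeff_X_one, coeff_C_of_ne_zero one_ne_zero, mul_one, add_zero]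

lemma mob_some (a b c e t : K) :
    mob a b c e (some t) = pt ![a * t + b, c * t + e] := by
  by_cases h : c * t + e = 0
  · rw [pt_zero h]
    exact Pool.Agent.W277.UH.ratP1_some0 _ _ _ _ (by rw [eval_lin, h])
  · rw [pt_ne h]
    have h1 : (C c * X + C e).eval t ≠ 0 := by
      rw [eval_lin]
      exact h
    exact (Pool.Agent.W277.UH.ratP1_some _ _ _ _ h1).trans (by rw [eval_lin, eval_lin])

lemma mob_none (a b c e : K) : mob a b c e none = pt ![a, c] := by
  by_cases h : c = 0
  · rw [pt_zero h]
    exact Pool.Agent.W277.UH.ratP1_none0 _ _ _ (by rw [coeff_lin, h])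
  · rw [pt_ne h]
    have h1 : (C c * X + C e).coeff 1 ≠ 0 := by
      rw [coeff_lin]
      exact h
    exact (Pool.Agent.W277.UH.ratP1_none _ _ _ h1).trans (by rw [coeff_lin, coeff_lin])

lemma mob_pt (a b c e u w : K) (h : u ≠ 0 ∨ w ≠ 0) :
    mob a b c e (pt ![u, w]) = pt ![a * u + b * w, c * u + e * w] := by
  by_cases hw : w = 0
  · have hu : u ≠ 0 := by
      rcases h with h | h
      · exact h
      · exact absurd hw h
    rw [pt_zero hw, mob_none, hw, mul_zero, mul_zero, add_zero, add_zero, mul_comm a, mul_comm c,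
      pt_smul u hu]
  · have h2 : w * (a * (u / w) + b) = a * u + b * w := by
      field_simp
    have h3 : w * (c * (u / w) + e) = c * u + e * w := by
      field_simp
    rw [pt_ne hw, mob_some, ← pt_smul w hw, h2, h3]

lemma exists_pt (y : Option K) : ∃ u w : K, (u ≠ 0 ∨ w ≠ 0) ∧ pt ![u, w] = y := by
  cases y with
  | none =>
    exact ⟨1, 0, Or.inl one_ne_zero, pt_zero rfl⟩
  | some t =>
    exact ⟨t, 1, Or.inr one_ne_zero, (pt_ne one_ne_zero).trans (by rw [div_one])⟩

lemma img_ne {a b c e : K} (hdet : a * e - b * c ≠ 0) {u w : K} (h : u ≠ 0 ∨ w ≠ 0) :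
    a * u + b * w ≠ 0 ∨ c * u + e * w ≠ 0 := by
  by_contra hh
  push Not at hh
  obtain ⟨h1, h2⟩ := hh
  have h3 : (a * e - b * c) * u = 0 := by linear_combination e * h1 - b * h2
  have h4 : (a * e - b * c) * w = 0 := by linear_combination a * h2 - c * h1
  rcases h with h | h
  · exact h ((mul_eq_zero.mp h3).resolve_left hdet)
  · exact h ((mul_eq_zero.mp h4).resolve_left hdet)

/-- `M' = (M' M⁻¹) M` -/
lemma mob_comp {a b c e : K} (hdet : a * e - b * c ≠ 0) (a' b' c' e' : K) (y : Option K) :
    mob (a' * e - b' * c) (b' * a - a' * b) (c' * e - e' * c) (e' * a - c' * b)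
      (mob a b c e y) = mob a' b' c' e' y := by
  obtain ⟨u, w, h, rfl⟩ := exists_pt y
  have h1 : (a' * e - b' * c) * (a * u + b * w) + (b' * a - a' * b) * (c * u + e * w) =
      (a * e - b * c) * (a' * u + b' * w) := by ring
  have h2 : (c' * e - e' * c) * (a * u + b * w) + (e' * a - c' * b) * (c * u + e * w) =
      (a * e - b * c) * (c' * u + e' * w) := by ring
  rw [mob_pt _ _ _ _ _ _ h, mob_pt _ _ _ _ _ _ (img_ne hdet h), mob_pt _ _ _ _ _ _ h, h1, h2,
    pt_smul _ hdet]

lemma mob_surj {a b c e : K} (hdet : a * e - b * c ≠ 0) (y : Option K) :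
    ∃ x, mob a b c e x = y := by
  obtain ⟨u, w, h, rfl⟩ := exists_pt y
  have hdet' : e * a - (-b) * (-c) ≠ 0 := by
    intro h0
    apply hdet
    linear_combination h0
  refine ⟨pt ![e * u + -b * w, -c * u + a * w], ?_⟩
  have h1 : a * (e * u + -b * w) + b * (-c * u + a * w) = (a * e - b * c) * u := by ring
  have h2 : c * (e * u + -b * w) + e * (-c * u + a * w) = (a * e - b * c) * w := by ring
  rw [mob_pt _ _ _ _ _ _ (img_ne hdet' h), h1, h2, pt_smul _ hdet]

lemma mob_id {a : K} (ha : a ≠ 0) (y : Option K) : mob a 0 0 a y = y := by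
  obtain ⟨u, w, h, rfl⟩ := exists_pt y
  rw [mob_pt _ _ _ _ _ _ h, zero_mul, add_zero, zero_mul, zero_add, pt_smul a ha]

end mob

section coef

variable {K : Type} [Field K] {d : ℕ}

lemma num_coeff (x : Sg d → K) (j : ℕ) :
    (num d x).coeff j = if h : j < d then x (Sum.inl ⟨j, h⟩) else 0 := by
  unfold num
  rw [finsetSum_coeff]
  simp only [coeff_C_mul, coeff_X_pow, mul_ite, mul_one, mul_zero]
  by_cases h : j < d
  · rw [dif_pos h, Finset.sum_eq_single ⟨j, h⟩]
    · simp
    · intro i _ hi
      rw [if_neg]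
      intro h1
      apply hi
      ext
      exact h1.symm
    · intro h1
      exact absurd (mem_univ _) h1
  · rw [dif_neg h]
    refine Finset.sum_eq_zero fun i _ => ?_
    rw [if_neg]
    intro h1
    exact h (h1 ▸ i.2)

lemma den_coeff (x : Sg d → K) (j : ℕ) :
    (den d x).coeff j = (if j = d then 1 else 0) +
      (if h : 1 ≤ j ∧ j - 1 < d - 1 then x (Sum.inr ⟨j - 1, h.2⟩) else 0) +
      (if j = 0 then (num d x).coeff 0 else 0) := by
  unfold den
  rw [coeff_add, coeff_add, coeff_X_pow, coeff_C, finsetSum_coeff]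
  congr 2
  simp only [coeff_C_mul, coeff_X_pow, mul_ite, mul_one, mul_zero]
  by_cases h : 1 ≤ j ∧ j - 1 < d - 1
  · rw [dif_pos h, Finset.sum_eq_single ⟨j - 1, h.2⟩]
    · rw [if_pos]
      simp only
      omega
    · intro i _ hi
      rw [if_neg]
      intro h1
      apply hi
      ext
      simp only
      omega
    · intro h1
      exact absurd (mem_univ _) h1
  · rw [dif_neg h]
    refine Finset.sum_eq_zero fun i _ => ?_
    rw [if_neg]
    intro h1
    have := i.2
    apply h
    omega

lemma den_monic (hd : 2 ≤ d) (x : Sg d → K) : (den d x).natDegree = d ∧ (den d x).Monic := by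
  have h1 : (den d x).coeff d = 1 := by
    rw [den_coeff, if_pos rfl, dif_neg (by omega), if_neg (by omega), add_zero, add_zero]
  have h2 : (den d x).natDegree ≤ d := by
    rw [natDegree_le_iff_coeff_eq_zero]
    intro j hj
    rw [den_coeff, if_neg (by omega), dif_neg (by omega), if_neg (by omega), add_zero, add_zero]
  have h3 : (den d x).natDegree = d := le_antisymm h2 (le_natDegree_of_ne_zero (by
    rw [h1]
    exact one_ne_zero))
  refine ⟨h3, ?_⟩
  rw [Monic, leadingCoeff, h3, h1]

lemma g_none (hd : 2 ≤ d) (x : Sg d → K) : ratP1 (num d x) (den d x) d none = some 0 := by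
  have h1 : (den d x).coeff d = 1 := by
    have h := den_monic hd x
    have h2 := h.2
    rw [Monic, leadingCoeff, h.1] at h2
    exact h2
  rw [Pool.Agent.W277.UH.ratP1_none _ _ _ (by rw [h1]; exact one_ne_zero), num_coeff,
    dif_neg (lt_irrefl d), zero_div]

lemma g_zero (hd : 2 ≤ d) (x : Sg d → K) (hc : IsCoprime (num d x) (den d x)) :
    ratP1 (num d x) (den d x) d (some 0) = some 1 := by
  have h1 : (den d x).eval 0 = (num d x).eval 0 := by
    rw [← coeff_zero_eq_eval_zero, ← coeff_zero_eq_eval_zero, den_coeff, if_neg (by omega),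
      dif_neg (by omega), if_pos rfl, zero_add, zero_add]
  have h2 : (den d x).eval 0 ≠ 0 := by
    intro h0
    obtain ⟨A, B, h⟩ := hc
    have h3 := congrArg (eval 0) h
    rw [eval_add, eval_mul, eval_mul, ← h1, h0, mul_zero, mul_zero, add_zero, eval_one] at h3
    exact zero_ne_one h3
  rw [Pool.Agent.W277.UH.ratP1_some _ _ _ _ h2, h1, div_self]
  rw [← h1]
  exact h2

lemma ratP1_smul (r : K) (hr : r ≠ 0) (p q : K[X]) (y : Option K) :
    ratP1 (C r * p) (C r * q) d y = ratP1 p q d y := by
  cases y with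
  | none =>
    by_cases h : q.coeff d = 0
    · rw [Pool.Agent.W277.UH.ratP1_none0 _ _ _ h, Pool.Agent.W277.UH.ratP1_none0]
      rw [coeff_C_mul, h, mul_zero]
    · rw [Pool.Agent.W277.UH.ratP1_none _ _ _ h, Pool.Agent.W277.UH.ratP1_none, coeff_C_mul,
        coeff_C_mul, mul_div_mul_left _ _ hr]
      rw [coeff_C_mul]
      exact mul_ne_zero hr h
  | some t =>
    by_cases h : q.eval t = 0
    · rw [Pool.Agent.W277.UH.ratP1_some0 _ _ _ _ h, Pool.Agent.W277.UH.ratP1_some0]
      rw [eval_mul, h, mul_zero]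
    · rw [Pool.Agent.W277.UH.ratP1_some _ _ _ _ h, Pool.Agent.W277.UH.ratP1_some, eval_mul,
        eval_mul, eval_C, mul_div_mul_left _ _ hr]
      rw [eval_mul, eval_C]
      exact mul_ne_zero hr h

/-- a map in normal form determines its coefficients -/
lemma coef_inj [Infinite K] (hd : 2 ≤ d) (x x' : Sg d → K) (hc : IsCoprime (num d x) (den d x))
    (hc' : IsCoprime (num d x') (den d x'))
    (h : ∀ y, ratP1 (num d x) (den d x) d y = ratP1 (num d x') (den d x') d y) : x = x' := by
  have h1 : num d x * den d x' = num d x' * den d x := by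
    apply Polynomial.funext
    intro t
    rw [eval_mul, eval_mul]
    have h2 := h (some t)
    by_cases h3 : (den d x).eval t = 0
    · rw [Pool.Agent.W277.UH.ratP1_some0 _ _ _ _ h3] at h2
      have h4 : (den d x').eval t = 0 := by
        by_contra h5
        rw [Pool.Agent.W277.UH.ratP1_some _ _ _ _ h5] at h2
        cases h2
      rw [h3, h4, mul_zero, mul_zero]
    · rw [Pool.Agent.W277.UH.ratP1_some _ _ _ _ h3] at h2
      have h4 : (den d x').eval t ≠ 0 := by
        intro h5
        rw [Pool.Agent.W277.UH.ratP1_some0 _ _ _ _ h5] at h2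
        cases h2
      rw [Pool.Agent.W277.UH.ratP1_some _ _ _ _ h4, Option.some_inj, div_eq_div_iff h3 h4] at h2
      exact h2
  obtain ⟨hd1, hm1⟩ := den_monic hd x
  obtain ⟨hd2, hm2⟩ := den_monic hd x'
  have h2 : den d x = den d x' := by
    have h3 : den d x ∣ den d x' := by
      apply hc.symm.dvd_of_dvd_mul_left
      rw [h1]
      exact dvd_mul_left _ _
    exact (Polynomial.eq_of_monic_of_dvd_of_natDegree_le hm1 hm2 h3 (by rw [hd1, hd2])).symm
  have h3 : num d x = num d x' := by
    rw [h2] at h1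
    exact mul_right_cancel₀ hm2.ne_zero h1
  funext j
  cases j with
  | inl i =>
    have h4 : (num d x).coeff (i : ℕ) = (num d x').coeff (i : ℕ) := by rw [h3]
    rw [num_coeff, num_coeff, dif_pos i.2, dif_pos i.2] at h4
    exact h4
  | inr i =>
    have h4 : (den d x).coeff ((i : ℕ) + 1) = (den d x').coeff ((i : ℕ) + 1) := by rw [h2]
    have hi := i.2
    rw [den_coeff, den_coeff, if_neg (by omega), if_neg (by omega), dif_pos (by omega),
      dif_pos (by omega), if_neg (by omega)] at h4
    simp only [zero_add, add_zero, Nat.add_sub_cancel] at h4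
    exact h4

end coef

theorem nfm : S_nrm → S_nfm := by
  intro hnrm K _ _ d n hd hn p q z hpq hdeg hz
  obtain ⟨⟨p', q', M, a, b, c, e, hdet, hM, hpq', hdeg', hconj, hMz, h0, h1, hper⟩, hfix⟩ :=
    hnrm K d n p q (by omega) hpq hdeg hn z hz
  -- the normal form
  have hq1 : q'.coeff d ≠ 0 := by
    intro h
    rw [Pool.Agent.W277.UH.ratP1_none0 _ _ _ h] at h0
    cases h0
  have hp1 : p'.coeff d = 0 := by
    rw [Pool.Agent.W277.UH.ratP1_none _ _ _ hq1, Option.some_inj, div_eq_zero_iff] at h0
    exact h0.resolve_right hq1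
  have hq0 : q'.eval 0 ≠ 0 := by
    intro h
    rw [Pool.Agent.W277.UH.ratP1_some0 _ _ _ _ h] at h1
    cases h1
  have hp0 : p'.coeff 0 = q'.coeff 0 := by
    rw [Pool.Agent.W277.UH.ratP1_some _ _ _ _ hq0, Option.some_inj, div_eq_one_iff_eq hq0] at h1
    rw [coeff_zero_eq_eval_zero, coeff_zero_eq_eval_zero, h1]
  have hpd : p'.natDegree ≤ d := (le_max_left _ _).trans hdeg'.le
  have hqd : q'.natDegree ≤ d := (le_max_right _ _).trans hdeg'.le
  set r : K := (q'.coeff d)⁻¹ with hr
  have hr0 : r ≠ 0 := inv_ne_zero hq1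
  set x : Sg d → K := Sum.elim (fun i => r * p'.coeff i) (fun i => r * q'.coeff (i + 1)) with hx
  have hnum : num d x = C r * p' := by
    ext j
    rw [num_coeff, coeff_C_mul]
    by_cases h : j < d
    · rw [dif_pos h, hx, Sum.elim_inl]
    · rw [dif_neg h]
      rcases eq_or_lt_of_le (not_lt.mp h) with h2 | h2
      · rw [← h2, hp1, mul_zero]
      · rw [coeff_eq_zero_of_natDegree_lt (lt_of_le_of_lt hpd h2), mul_zero]
  have hden : den d x = C r * q' := by
    ext j
    rw [den_coeff, coeff_C_mul, hnum, coeff_C_mul]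
    rcases lt_trichotomy j d with h | h | h
    · rw [if_neg (by omega), zero_add]
      by_cases hj : j = 0
      · subst hj
        rw [dif_neg (by omega), if_pos rfl, zero_add, hp0]
      · rw [dif_pos (by omega), if_neg hj, add_zero, hx, Sum.elim_inr]
        simp only
        rw [Nat.sub_add_cancel (by omega)]
    · subst h
      rw [if_pos rfl, dif_neg (by omega), if_neg (by omega), add_zero, add_zero, hr,
        inv_mul_cancel₀ hq1]
    · rw [if_neg (by omega), dif_neg (by omega), if_neg (by omega), add_zero, add_zero,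
        coeff_eq_zero_of_natDegree_lt (lt_of_le_of_lt hqd h), mul_zero]
  have hfun : ratP1 (num d x) (den d x) d = ratP1 p' q' d := by
    funext y
    rw [hnum, hden, ratP1_smul r hr0]
  have hcop : IsCoprime (num d x) (den d x) := by
    have hu : IsUnit (C r) := isUnit_C.mpr hr0.isUnit
    rw [hnum, hden, isCoprime_mul_unit_left hu]
    exact hpq'
  refine ⟨x, ⟨⟨hcop, ?_⟩, a, b, c, e, hdet, ?_, ?_⟩, ?_⟩
  · rw [hfun]
    exact hper
  · intro y
    rw [hfun, ← hM, ← hM]
    exact hconj y
  · rw [← hM]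
    exact hMz
  · -- uniqueness
    rintro x' ⟨⟨hcop', hper'⟩, a', b', c', e', hdet', hconj', hMz'⟩
    symm
    have hMM : ∀ y, mob a b c e (ratP1 p q d y) =
        ratP1 (num d x) (den d x) d (mob a b c e y) := by
      intro y
      rw [hfun]
      change ratP1 _ _ 1 _ = ratP1 _ _ _ (ratP1 _ _ 1 _)
      rw [← hM, ← hM]
      exact hconj y
    have hMz1 : mob a b c e z = none := by
      change ratP1 _ _ 1 _ = _
      rw [← hM]
      exact hMz
    have e1 : mob a b c e (ratP1 p q d z) = some 0 := by rw [hMM, hMz1, g_none hd]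
    have e2 : mob a b c e (ratP1 p q d (ratP1 p q d z)) = some 1 := by
      rw [hMM, e1, g_zero hd x hcop]
    have e1' : mob a' b' c' e' (ratP1 p q d z) = some 0 :=
      (hconj' z).trans (by rw [hMz', g_none hd])
    have e2' : mob a' b' c' e' (ratP1 p q d (ratP1 p q d z)) = some 1 :=
      (hconj' _).trans (by
        change ratP1 _ _ _ (mob a' b' c' e' (ratP1 p q d z)) = _
        rw [e1', g_zero hd x' hcop'])
    have hcomp := mob_comp hdet a' b' c' e'
    have hdet2 : (a' * e - b' * c) * (e' * a - c' * b) - (b' * a - a' * b) * (c' * e - e' * c) ≠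
        0 := by
      have : (a' * e - b' * c) * (e' * a - c' * b) - (b' * a - a' * b) * (c' * e - e' * c) =
          (a' * e' - b' * c') * (a * e - b * c) := by ring
      rw [this]
      exact mul_ne_zero hdet' hdet
    obtain ⟨f1, f2, f3⟩ := hfix _ _ _ _ hdet2
      (by rw [← hMz1]; exact (hcomp z).trans (hMz'.trans hMz1.symm))
      (by
        have := hcomp (ratP1 p q d z)
        rw [e1, e1'] at this
        exact this)
      (by
        have := hcomp (ratP1 p q d (ratP1 p q d z))
        rw [e2, e2'] at this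
        exact this)
    have hMeq : ∀ y, mob a' b' c' e' y = mob a b c e y := by
      intro y
      rw [← hcomp y, f1, f2, ← f3]
      apply mob_id
      intro h
      rw [← f3, h, f1] at hdet2
      apply hdet2
      ring
    refine coef_inj hd x x' hcop hcop' fun y => ?_
    obtain ⟨t, rfl⟩ := mob_surj hdet y
    rw [← hMM, ← hMeq, ← hMeq]
    exact hconj' t

end Pool.Agent.Q174.GT
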